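import Mathlib

/-!
Transversals of 3-uniform hypergraphs: potential function argument (Chvatal-McDiarmid for maximum
degree two, greedy removal of a vertex of maximum degree above).
-/

open Finset

namespace Pool.Agent.W325.SD

/-- `f 0 = 1`, `f 1 = 2/3`, `f 2 = 7/12`, `f (d+1) = f d * (2d+2)/(2d+3)` for `d >= 2`. -/
def f : ℕ → ℚ
  | 0 => 1
  | 1 => 2 / 3
  | 2 => 7 / 12
  | (d + 3) => f (d + 2) * ((2 * (d + 3 : ℕ)) / (2 * (d + 3 : ℕ) + 1))

/-- The decrements. -/
def g (d : ℕ) : ℚ := f d - f (d + 1)

theorem f_pos : ∀ d, 0 < f d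
  | 0 => by norm_num [f]
  | 1 => by norm_num [f]
  | 2 => by norm_num [f]
  | (d + 3) => by
    have h := f_pos (d + 2)
    simp only [f]
    positivity

theorem f_succ (d : ℕ) (hd : 2 ≤ d) : f (d + 1) * (2 * d + 3) = f d * (2 * d + 2) := by
  obtain ⟨e, rfl⟩ := Nat.exists_eq_add_of_le hd
  have : 2 + e + 1 = e + 3 := by ring
  rw [this]
  simp only [f]
  rw [show 2 + e = e + 2 by ring]
  push_cast
  have h : (2 * ((e : ℚ) + 3) + 1) ≠ 0 := by positivity
  field_simp
  ring

theorem g_eq (d : ℕ) (hd : 2 ≤ d) : g d * (2 * d + 2) = f (d + 1) := by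
  have h := f_succ d hd
  unfold g
  linarith

theorem g_pos (d : ℕ) : 0 < g d := by
  match d with
  | 0 => norm_num [g, f]
  | 1 => norm_num [g, f]
  | (d + 2) =>
    have h := g_eq (d + 2) (by omega)
    have h2 := f_pos (d + 2 + 1)
    by_contra hc
    push Not at hc
    have : g (d + 2) * (2 * ((d + 2 : ℕ) : ℚ) + 2) ≤ 0 :=
      mul_nonpos_of_nonpos_of_nonneg hc (by positivity)
    linarith

theorem g_anti_succ (d : ℕ) : g (d + 1) ≤ g d := by
  match d with
  | 0 => norm_num [g, f]
  | 1 => norm_num [g, f]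
  | (d + 2) =>
    have h1 := g_eq (d + 2) (by omega)
    have h2 := g_eq (d + 3) (by omega)
    have h3 : f (d + 3 + 1) ≤ f (d + 2 + 1) := by
      have := g_pos (d + 3)
      unfold g at this
      linarith
    have h4 : 0 < g (d + 3) := g_pos _
    push_cast at h1 h2
    have h5 : g (d + 3) * (2 * ((d : ℚ) + 2) + 2) ≤ g (d + 2) * (2 * ((d : ℚ) + 2) + 2) := by
      rw [h1]
      calc g (d + 3) * (2 * ((d : ℚ) + 2) + 2) ≤ g (d + 3) * (2 * ((d : ℚ) + 3) + 2) := by
            apply mul_le_mul_of_nonneg_left _ h4.le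
            linarith
        _ = f (d + 3 + 1) := h2
        _ ≤ _ := h3
    have h6 : (0 : ℚ) < 2 * ((d : ℚ) + 2) + 2 := by positivity
    exact le_of_mul_le_mul_right h5 h6

theorem g_anti : Antitone g := antitone_nat_of_succ_le g_anti_succ

/-- dropping the degree by `k` from `a + k <= D + 1` -/
theorem f_drop (D a k : ℕ) (h : a + k ≤ D + 1) : f (a + k) + k * g D ≤ f a := by
  induction k with
  | zero => simp
  | succ k ih =>
    have h1 := ih (by omega)
    have h2 : g D ≤ g (a + k) := g_anti (by omega)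
    have h3 : g (a + k) = f (a + k) - f (a + (k + 1)) := rfl
    push_cast
    linarith

variable {V : Type*} [Fintype V] [DecidableEq V]

/-- degree -/
def deg (E : Finset (Finset V)) (v : V) : ℕ := (E.filter (fun e => v ∈ e)).card

/-- potential -/
def Phi (E : Finset (Finset V)) : ℚ := ∑ v : V, (1 - f (deg E v))

/-- the edges of `E` not meeting `S` -/
def rest (E : Finset (Finset V)) (S : Finset V) : Finset (Finset V) :=
  E.filter (fun e => Disjoint e S)

/-- the edges of `E` meeting `S` -/
def hit (E : Finset (Finset V)) (S : Finset V) : Finset (Finset V) :=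
  E.filter (fun e => ¬ Disjoint e S)

omit [Fintype V] in
theorem deg_split (E : Finset (Finset V)) (S : Finset V) (v : V) :
    deg E v = deg (rest E S) v + deg (hit E S) v := by
  unfold deg rest hit
  rw [Finset.filter_filter, Finset.filter_filter, ← Finset.card_union_of_disjoint]
  · congr 1
    ext e
    simp only [mem_filter, mem_union]
    tauto
  · rw [Finset.disjoint_filter]
    rintro e _ ⟨h1, _⟩ ⟨h2, _⟩
    exact h2 h1

theorem sum_deg (E : Finset (Finset V)) (h3 : ∀ e ∈ E, e.card = 3) :
    ∑ v : V, deg E v = 3 * E.card := by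
  unfold deg
  simp_rw [Finset.card_filter]
  rw [Finset.sum_comm]
  have : ∀ e ∈ E, (∑ v : V, if v ∈ e then 1 else 0) = 3 := by
    intro e he
    rw [← Finset.card_filter]
    rw [← h3 e he]
    congr 1
    ext v
    simp
  rw [Finset.sum_congr rfl this]
  simp [mul_comm]

/-- Greedy step. -/
theorem greedy (E : Finset (Finset V)) (h3 : ∀ e ∈ E, e.card = 3) (v : V) (D : ℕ)
    (hD : 2 ≤ D) (hv : deg E v = D + 1) (hmax : ∀ u, deg E u ≤ D + 1) :
    Phi (rest E {v}) + 1 ≤ Phi E := by
  have hrest : deg (rest E {v}) v = 0 := by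
    unfold deg rest
    rw [Finset.card_eq_zero, Finset.filter_filter]
    apply Finset.filter_eq_empty_iff.2
    rintro e _ ⟨h1, h2⟩
    simp only [disjoint_singleton_right] at h1
    exact h1 h2
  have hk : deg (hit E {v}) v = D + 1 := by
    have := deg_split E {v} v
    omega
  have hcard : (hit E {v}).card = D + 1 := by
    rw [← hv]
    unfold hit deg
    congr 1
    ext e
    simp
  have hsum : ∑ u : V, deg (hit E {v}) u = 3 * (D + 1) := by
    have := sum_deg (hit E {v}) (fun e he => h3 e (Finset.mem_filter.1 he).1)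
    rw [hcard] at this
    exact this
  have hsum' : ∑ u ∈ Finset.univ.erase v, deg (hit E {v}) u = 2 * (D + 1) := by
    have := Finset.add_sum_erase Finset.univ (fun u => deg (hit E {v}) u) (Finset.mem_univ v)
    omega
  have hpt : ∀ u ∈ Finset.univ.erase v,
      (1 - f (deg (rest E {v}) u)) + (deg (hit E {v}) u : ℚ) * g D ≤ 1 - f (deg E u) := by
    intro u _
    have h1 := deg_split E {v} u
    have h2 := f_drop D (deg (rest E {v}) u) (deg (hit E {v}) u) (by have := hmax u; omega)
    rw [h1]
    linarith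
  have hs := Finset.sum_le_sum hpt
  rw [Finset.sum_add_distrib, ← Finset.sum_mul, ← Nat.cast_sum, hsum'] at hs
  unfold Phi
  rw [← Finset.add_sum_erase Finset.univ (fun u => 1 - f (deg (rest E {v}) u)) (Finset.mem_univ v),
    ← Finset.add_sum_erase Finset.univ (fun u => 1 - f (deg E u)) (Finset.mem_univ v)]
  simp only [hrest, hv]
  have hg := g_eq D hD
  have hf0 : f 0 = 1 := rfl
  rw [hf0]
  push_cast at hs
  nlinarith

end Pool.Agent.W325.SD
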