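import Pool.Agent.W325.SD.Base

/-!
3-uniform hypergraphs of maximum degree two: reducible configurations.
-/

open Finset

namespace Pool.Agent.W325.SD

variable {V : Type*} [Fintype V] [DecidableEq V]

/-- the vertices all of whose edges (at least one) are met by `S` -/
def Z (E : Finset (Finset V)) (S : Finset V) : Finset V :=
  Finset.univ.filter (fun u => 1 ≤ deg E u ∧ deg (rest E S) u = 0)

theorem mem_Z (E : Finset (Finset V)) (S : Finset V) (u : V) (e : Finset V) (he : e ∈ E)
    (hu : u ∈ e) (h : ∀ e' ∈ E, u ∈ e' → ¬ Disjoint e' S) : u ∈ Z E S := by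
  unfold Z
  rw [Finset.mem_filter]
  refine ⟨Finset.mem_univ _, ?_, ?_⟩
  · unfold deg
    exact Finset.card_pos.2 ⟨e, Finset.mem_filter.2 ⟨he, hu⟩⟩
  · unfold deg rest
    rw [Finset.card_eq_zero, Finset.filter_filter]
    apply Finset.filter_eq_empty_iff.2
    rintro e' he' ⟨h1, h2⟩
    exact h e' he' h2 h1

theorem phi_low (E : Finset (Finset V)) (h3 : ∀ e ∈ E, e.card = 3) (hmax : ∀ u, deg E u ≤ 2)
    (S : Finset V) (hS : 4 * S.card ≤ (hit E S).card + (Z E S).card) :
    Phi (rest E S) + S.card ≤ Phi E := by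
  have hpt : ∀ u ∈ (Finset.univ : Finset V),
      (1 - f (deg (rest E S) u)) + ((deg (hit E S) u : ℚ) / 12 +
        (if 1 ≤ deg E u ∧ deg (rest E S) u = 0 then (3 : ℚ) / 12 else 0)) ≤ 1 - f (deg E u) := by
    intro u _
    have h1 := deg_split E S u
    have h2 := hmax u
    rw [h1] at h2 ⊢
    generalize deg (rest E S) u = a at *
    generalize deg (hit E S) u = b at *
    have ha : a ≤ 2 := by omega
    have hb : b ≤ 2 := by omega
    interval_cases a <;> interval_cases b <;> first | omega | norm_num [f]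
  have hs := Finset.sum_le_sum hpt
  rw [Finset.sum_add_distrib, Finset.sum_add_distrib, ← Finset.sum_div, ← Nat.cast_sum,
    ← Finset.sum_filter, Finset.sum_const, nsmul_eq_mul] at hs
  have hsum := sum_deg (hit E S) (fun e he => h3 e (Finset.mem_filter.1 he).1)
  rw [hsum] at hs
  have hS' : (4 : ℚ) * S.card ≤ (hit E S).card + (Z E S).card := by exact_mod_cast hS
  unfold Z at hS'
  unfold Phi
  push_cast at hs
  linarith

omit [Fintype V] in
theorem two_edges (E : Finset (Finset V)) (x : V) (hx : deg E x ≤ 2) (e e' : Finset V)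
    (he : e ∈ E) (he' : e' ∈ E) (hne : e ≠ e') (hxe : x ∈ e) (hxe' : x ∈ e') (e'' : Finset V)
    (he'' : e'' ∈ E) (hxe'' : x ∈ e'') : e'' = e ∨ e'' = e' := by
  by_contra hc
  push Not at hc
  have hsub : ({e, e', e''} : Finset (Finset V)) ⊆ E.filter (fun e => x ∈ e) := by
    intro t ht
    simp only [Finset.mem_insert, Finset.mem_singleton] at ht
    rw [Finset.mem_filter]
    rcases ht with rfl | rfl | rfl
    · exact ⟨he, hxe⟩
    · exact ⟨he', hxe'⟩
    · exact ⟨he'', hxe''⟩
  have h1 := Finset.card_le_card hsub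
  have h2 : ({e, e', e''} : Finset (Finset V)).card = 3 := by
    rw [Finset.card_eq_three]
    exact ⟨e, e', e'', hne, hc.1.symm, hc.2.symm, rfl⟩
  unfold deg at hx
  omega

omit [Fintype V] in
theorem one_edge (E : Finset (Finset V)) (x : V) (hx : deg E x ≤ 1) (e : Finset V)
    (he : e ∈ E) (hxe : x ∈ e) (e'' : Finset V)
    (he'' : e'' ∈ E) (hxe'' : x ∈ e'') : e'' = e := by
  unfold deg at hx
  exact Finset.card_le_one.1 hx _ (Finset.mem_filter.2 ⟨he'', hxe''⟩) _
    (Finset.mem_filter.2 ⟨he, hxe⟩)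

omit [Fintype V] in
theorem other_edge (E : Finset (Finset V)) (x : V) (hx : deg E x = 2) (e : Finset V) :
    ∃ e' ∈ E, x ∈ e' ∧ e' ≠ e := by
  unfold deg at hx
  obtain ⟨b, hb, hbe⟩ := Finset.exists_mem_ne (s := E.filter (fun e => x ∈ e)) (by omega) e
  rw [Finset.mem_filter] at hb
  exact ⟨b, hb.1, hb.2, hbe⟩

omit [Fintype V] in
theorem card_hit_singleton (E : Finset (Finset V)) (x : V) : (hit E {x}).card = deg E x := by
  unfold hit deg
  congr 1
  ext e
  simp

/-- an even cycle of edges gives a reducible configuration -/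
theorem even_cycle (E : Finset (Finset V)) (hmax : ∀ u, deg E u ≤ 2) (k : ℕ) (hk : 2 ≤ k)
    (c : ℕ → Finset V) (hc : ∀ a, a < 2 * k → c a ∈ E)
    (hinj : ∀ a b, a < 2 * k → b < 2 * k → c a = c b → a = b)
    (hadj : ∀ a, a + 1 < 2 * k → ¬ Disjoint (c a) (c (a + 1)))
    (hlast : ¬ Disjoint (c (2 * k - 1)) (c 0)) :
    ∃ S : Finset V, (hit E S).Nonempty ∧ 4 * S.card ≤ (hit E S).card + (Z E S).card := by
  -- the successor
  let nx : ℕ → ℕ := fun a => if a + 1 = 2 * k then 0 else a + 1
  have hnx : ∀ a, a < 2 * k → nx a < 2 * k := by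
    intro a ha
    simp only [nx]
    split_ifs <;> omega
  have hex : ∀ a, ∃ x : V, a < 2 * k → x ∈ c a ∧ x ∈ c (nx a) := by
    intro a
    by_cases ha : a < 2 * k
    · by_cases h1 : a + 1 = 2 * k
      · have h2 : a = 2 * k - 1 := by omega
        have h3 : nx a = 0 := by simp [nx, h1]
        rw [h3, h2]
        obtain ⟨x, hx1, hx2⟩ := Finset.not_disjoint_iff.1 hlast
        exact ⟨x, fun _ => ⟨hx1, hx2⟩⟩
      · have h3 : nx a = a + 1 := by simp [nx, h1]
        rw [h3]
        obtain ⟨x, hx1, hx2⟩ := Finset.not_disjoint_iff.1 (hadj a (by omega))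
        exact ⟨x, fun _ => ⟨hx1, hx2⟩⟩
    · have h0 := hadj 0 (by omega)
      obtain ⟨x, _, _⟩ := Finset.not_disjoint_iff.1 h0
      exact ⟨x, fun h => absurd h ha⟩
  choose x hx using hex
  have hnn : ∀ a, a < 2 * k → c a ≠ c (nx a) := by
    intro a ha h
    have := hinj a (nx a) ha (hnx a ha) h
    simp only [nx] at this
    split_ifs at this <;> omega
  have hedges : ∀ a, a < 2 * k → ∀ e ∈ E, x a ∈ e → e = c a ∨ e = c (nx a) := by
    intro a ha e he hxe
    exact two_edges E (x a) (hmax _) (c a) (c (nx a)) (hc a ha) (hc _ (hnx a ha)) (hnn a ha)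
      (hx a ha).1 (hx a ha).2 e he hxe
  have hxinj : ∀ a b, a < 2 * k → b < 2 * k → x a = x b → a = b := by
    intro a b ha hb hab
    by_contra hne
    have h1 := hedges a ha (c b) (hc b hb) (by rw [hab]; exact (hx b hb).1)
    have h2 := hedges b hb (c a) (hc a ha) (by rw [← hab]; exact (hx a ha).1)
    have h1' : b = nx a := by
      rcases h1 with h1 | h1
      · exact absurd (hinj _ _ hb ha h1).symm hne
      · exact hinj _ _ hb (hnx a ha) h1
    have h2' : a = nx b := by
      rcases h2 with h2 | h2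
      · exact absurd (hinj _ _ ha hb h2) hne
      · exact hinj _ _ ha (hnx b hb) h2
    simp only [nx] at h1' h2'
    split_ifs at h1' h2' <;> omega
  let S : Finset V := (Finset.range k).image (fun a => x (2 * a))
  have hhit : ∀ b, b < 2 * k → ¬ Disjoint (c b) S := by
    intro b hb
    rw [Finset.not_disjoint_iff]
    rcases Nat.even_or_odd' b with ⟨a, rfl | rfl⟩
    · refine ⟨x (2 * a), (hx _ hb).1, ?_⟩
      exact Finset.mem_image.2 ⟨a, Finset.mem_range.2 (by omega), rfl⟩
    · refine ⟨x (2 * a), ?_, ?_⟩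
      · have h1 := (hx (2 * a) (by omega)).2
        have h2 : nx (2 * a) = 2 * a + 1 := by
          simp only [nx]
          split_ifs <;> omega
        rwa [h2] at h1
      · exact Finset.mem_image.2 ⟨a, Finset.mem_range.2 (by omega), rfl⟩
  have hR : (Finset.range (2 * k)).image c ⊆ hit E S := by
    intro e he
    obtain ⟨b, hb, rfl⟩ := Finset.mem_image.1 he
    rw [Finset.mem_range] at hb
    exact Finset.mem_filter.2 ⟨hc b hb, hhit b hb⟩
  have hRc : 2 * k ≤ (hit E S).card := by
    have h1 := Finset.card_le_card hR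
    rw [Finset.card_image_of_injOn, Finset.card_range] at h1
    · exact h1
    · intro a ha b hb hab
      simp only [Finset.coe_range, Set.mem_Iio] at ha hb
      exact hinj a b ha hb hab
  have hZ : (Finset.range (2 * k)).image x ⊆ Z E S := by
    intro u hu
    obtain ⟨b, hb, rfl⟩ := Finset.mem_image.1 hu
    rw [Finset.mem_range] at hb
    refine mem_Z E S (x b) (c b) (hc b hb) (hx b hb).1 ?_
    intro e he hxe
    rcases hedges b hb e he hxe with rfl | rfl
    · exact hhit b hb
    · exact hhit _ (hnx b hb)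
  have hZc : 2 * k ≤ (Z E S).card := by
    have h1 := Finset.card_le_card hZ
    rw [Finset.card_image_of_injOn, Finset.card_range] at h1
    · exact h1
    · intro a ha b hb hab
      simp only [Finset.coe_range, Set.mem_Iio] at ha hb
      exact hxinj a b ha hb hab
  have hSc : S.card ≤ k := by
    have := Finset.card_image_le (s := Finset.range k) (f := fun a => x (2 * a))
    rw [Finset.card_range] at this
    exact this
  refine ⟨S, ?_, by omega⟩
  exact Finset.card_pos.1 (by omega)

end Pool.Agent.W325.SD
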