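import Pool.Agent.W325.SD.Path

/-!
Transversals of 3-uniform hypergraphs, and simultaneous domination.
-/

open Finset

namespace Pool.Agent.W325.SD

variable {V : Type*} [Fintype V] [DecidableEq V]

theorem rest_card_lt (E : Finset (Finset V)) (S : Finset V) (h : (hit E S).Nonempty) :
    (rest E S).card < E.card := by
  obtain ⟨e, he⟩ := h
  unfold hit at he
  rw [Finset.mem_filter] at he
  apply Finset.card_lt_card
  unfold rest
  rw [Finset.filter_ssubset]
  exact ⟨e, he.1, he.2⟩

/-- Every 3-uniform hypergraph has a transversal of size at most the potential. -/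
theorem transversal (n : ℕ) : ∀ (E : Finset (Finset V)), E.card ≤ n → (∀ e ∈ E, e.card = 3) →
    ∃ S : Finset V, (∀ e ∈ E, ¬ Disjoint e S) ∧ (S.card : ℚ) ≤ Phi E := by
  induction n with
  | zero =>
    intro E hE _
    have hE0 : E = ∅ := Finset.card_eq_zero.1 (by omega)
    subst hE0
    refine ⟨∅, by simp, ?_⟩
    unfold Phi deg
    simp [f]
  | succ n ih =>
    intro E hE h3
    rcases E.eq_empty_or_nonempty with rfl | hne
    · refine ⟨∅, by simp, ?_⟩
      unfold Phi deg
      simp [f]
    -- a general step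
    have step : ∀ S0 : Finset V, (hit E S0).Nonempty → Phi (rest E S0) + S0.card ≤ Phi E →
        ∃ S : Finset V, (∀ e ∈ E, ¬ Disjoint e S) ∧ (S.card : ℚ) ≤ Phi E := by
      intro S0 hS0 hphi
      have hlt := rest_card_lt E S0 hS0
      obtain ⟨S, hS, hSc⟩ := ih (rest E S0) (by omega)
        (fun e he => h3 e (Finset.mem_filter.1 he).1)
      refine ⟨S ∪ S0, ?_, ?_⟩
      · intro e he
        by_cases hd : Disjoint e S0
        · have := hS e (Finset.mem_filter.2 ⟨he, hd⟩)
          intro hc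
          exact this (Finset.disjoint_of_subset_right Finset.subset_union_left hc)
        · intro hc
          exact hd (Finset.disjoint_of_subset_right Finset.subset_union_right hc)
      · have h1 : ((S ∪ S0).card : ℚ) ≤ S.card + S0.card := by
          exact_mod_cast Finset.card_union_le S S0
        linarith
    by_cases hbig : ∃ v, 3 ≤ deg E v
    · obtain ⟨v0, hv0⟩ := hbig
      obtain ⟨v, _, hv⟩ := Finset.exists_max_image (Finset.univ : Finset V) (deg E)
        ⟨v0, Finset.mem_univ _⟩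
      have h0 := hv v0 (Finset.mem_univ _)
      obtain ⟨D, hD⟩ : ∃ D, deg E v = D + 1 := ⟨deg E v - 1, by omega⟩
      refine step {v} ?_ ?_
      · apply Finset.card_pos.1
        rw [card_hit_singleton]
        omega
      · rw [Finset.card_singleton]
        have := greedy E h3 v D (by omega) hD
          (fun u => by have := hv u (Finset.mem_univ _); omega)
        push_cast
        exact this
    · push Not at hbig
      have hmax : ∀ u, deg E u ≤ 2 := fun u => by have := hbig u; omega
      obtain ⟨S0, hS0, hc⟩ := low E hne h3 hmax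
      exact step S0 hS0 (phi_low E h3 hmax S0 hc)

theorem f_up (D k : ℕ) : f (D + 1) ≤ f (D + 1 + k) + k * g D := by
  induction k with
  | zero => simp
  | succ k ih =>
    have h2 : g (D + 1 + k) ≤ g D := g_anti (by omega)
    have h3 : g (D + 1 + k) = f (D + 1 + k) - f (D + 1 + (k + 1)) := rfl
    push_cast
    linarith

/-- tangent line -/
theorem f_tangent (D d : ℕ) : f (D + 1) + (D + 1 : ℚ) * g D ≤ f d + d * g D := by
  rcases Nat.le_total d (D + 1) with h | h
  · obtain ⟨k, hk⟩ := Nat.exists_eq_add_of_le h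
    have h1 := f_drop D d k (by omega)
    rw [← hk] at h1
    have h2 : ((D : ℚ) + 1) = d + k := by exact_mod_cast hk
    rw [h2]
    linarith
  · obtain ⟨k, hk⟩ := Nat.exists_eq_add_of_le h
    have h1 := f_up D k
    rw [← hk] at h1
    have h2 : (d : ℚ) = D + 1 + k := by exact_mod_cast hk
    rw [h2]
    linarith

/-- Average degree version. -/
theorem transversal_avg (E : Finset (Finset V)) (h3 : ∀ e ∈ E, e.card = 3) (D : ℕ)
    (hE : 3 * E.card ≤ (D + 1) * Fintype.card V) :
    ∃ S : Finset V, (∀ e ∈ E, ¬ Disjoint e S) ∧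
      (S.card : ℚ) ≤ (1 - f (D + 1)) * Fintype.card V := by
  obtain ⟨S, hS, hSc⟩ := transversal E.card E le_rfl h3
  refine ⟨S, hS, hSc.trans ?_⟩
  have hpt : ∀ v ∈ (Finset.univ : Finset V),
      1 - f (deg E v) ≤ (1 - f (D + 1) - (D + 1 : ℚ) * g D) + (deg E v : ℚ) * g D := by
    intro v _
    have := f_tangent D (deg E v)
    linarith
  have hs := Finset.sum_le_sum hpt
  rw [Finset.sum_add_distrib, ← Finset.sum_mul, ← Nat.cast_sum, sum_deg E h3,
    Finset.sum_const, nsmul_eq_mul, Finset.card_univ] at hs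
  have hE' : ((3 * E.card : ℕ) : ℚ) ≤ (D + 1 : ℚ) * Fintype.card V := by exact_mod_cast hE
  have h4 : ((3 * E.card : ℕ) : ℚ) * g D ≤ (D + 1 : ℚ) * Fintype.card V * g D :=
    mul_le_mul_of_nonneg_right hE' (g_pos D).le
  unfold Phi
  nlinarith

theorem f_prod (m : ℕ) : f (m + 3) = 1 / 2 * ∏ i ∈ Finset.Icc 4 (m + 3), (2 * i : ℚ) / (2 * i + 1) := by
  induction m with
  | zero =>
    simp only [f]
    norm_num
  | succ m ih =>
    rw [show m + 1 + 3 = (m + 3) + 1 by ring, Finset.prod_Icc_succ_top (by omega), ← mul_assoc, ← ih]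
    rw [show (m + 3) + 1 = (m + 1) + 3 by ring]
    rw [show f ((m + 1) + 3) = f ((m + 1) + 2) * ((2 * ((m + 1) + 3 : ℕ)) / (2 * ((m + 1) + 3 : ℕ) + 1)) by
      simp only [f]]

/-- Simultaneous domination of `k` graphs of minimum degree at least two. -/
theorem sim_dom (k : ℕ) (hk : 1 ≤ k) (G : Fin k → SimpleGraph V)
    (hG : ∀ i v, ∃ a b : V, a ≠ b ∧ (G i).Adj v a ∧ (G i).Adj v b) :
    ∃ S : Finset V, (∀ i v, v ∈ S ∨ ∃ u ∈ S, (G i).Adj v u) ∧
      (S.card : ℚ) ≤ (1 - f (3 * k)) * Fintype.card V := by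
  choose a b hab ha hb using hG
  let E : Finset (Finset V) :=
    (Finset.univ : Finset (Fin k × V)).image (fun p => {p.2, a p.1 p.2, b p.1 p.2})
  have h3 : ∀ e ∈ E, e.card = 3 := by
    intro e he
    obtain ⟨p, _, rfl⟩ := Finset.mem_image.1 he
    rw [Finset.card_eq_three]
    exact ⟨_, _, _, (ha p.1 p.2).ne, (hb p.1 p.2).ne, hab p.1 p.2, rfl⟩
  have hEc : E.card ≤ k * Fintype.card V := by
    refine Finset.card_image_le.trans ?_
    rw [Finset.card_univ, Fintype.card_prod, Fintype.card_fin]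
  obtain ⟨D, hD⟩ : ∃ D, 3 * k = D + 1 := ⟨3 * k - 1, by omega⟩
  obtain ⟨S, hS, hSc⟩ := transversal_avg E h3 D (by
    rw [← hD]
    calc 3 * E.card ≤ 3 * (k * Fintype.card V) := Nat.mul_le_mul_left 3 hEc
      _ = 3 * k * Fintype.card V := by ring)
  refine ⟨S, ?_, by rw [hD]; exact hSc⟩
  intro i v
  have h1 := hS {v, a i v, b i v} (Finset.mem_image.2 ⟨(i, v), Finset.mem_univ _, rfl⟩)
  obtain ⟨x, hx, hxS⟩ := Finset.not_disjoint_iff.1 h1
  simp only [Finset.mem_insert, Finset.mem_singleton] at hx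
  rcases hx with rfl | rfl | rfl
  · exact Or.inl hxS
  · exact Or.inr ⟨_, hxS, ha i v⟩
  · exact Or.inr ⟨_, hxS, hb i v⟩

end Pool.Agent.W325.SD
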