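import Pool.Agent.W325.SD.Low

/-!
3-uniform hypergraphs of maximum degree two: a reducible configuration always exists.
-/

open Finset

namespace Pool.Agent.W325.SD

variable {V : Type*} [Fintype V] [DecidableEq V]

/-- path of `L` distinct edges, consecutive ones meeting -/
def IsPath (E : Finset (Finset V)) (L : ℕ) (p : ℕ → Finset V) : Prop :=
  (∀ a, a < L → p a ∈ E) ∧ (∀ a b, a < L → b < L → p a = p b → a = b) ∧
    (∀ a, a + 1 < L → ¬ Disjoint (p a) (p (a + 1)))

omit [Fintype V] in
theorem exists_max_path (E : Finset (Finset V)) (hne : E.Nonempty) :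
    ∃ L p, 1 ≤ L ∧ IsPath E L p ∧ ∀ q, ¬ IsPath E (L + 1) q := by
  by_contra hcon
  push Not at hcon
  have key : ∀ L, ∃ p, IsPath E (L + 1) p := by
    intro L
    induction L with
    | zero =>
      obtain ⟨e, he⟩ := hne
      refine ⟨fun _ => e, ?_, ?_, ?_⟩
      · intro _ _
        exact he
      · intro a b ha hb _
        omega
      · intro a ha
        omega
    | succ L ih =>
      obtain ⟨p, hp⟩ := ih
      exact hcon (L + 1) p (by omega) hp
  obtain ⟨p, hp⟩ := key E.card
  have h1 : (Finset.range (E.card + 1)).image p ⊆ E := by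
    intro e he
    obtain ⟨a, ha, rfl⟩ := Finset.mem_image.1 he
    exact hp.1 a (Finset.mem_range.1 ha)
  have h2 := Finset.card_le_card h1
  rw [Finset.card_image_of_injOn, Finset.card_range] at h2
  · omega
  · intro a ha b hb hab
    simp only [Finset.coe_range, Set.mem_Iio] at ha hb
    exact hp.2.1 a b ha hb hab

omit [Fintype V] in
/-- every edge meeting the first edge of a longest path lies on the path -/
theorem on_path (E : Finset (Finset V)) (L : ℕ) (p : ℕ → Finset V) (hL : 1 ≤ L)
    (hp : IsPath E L p) (hmax : ∀ q, ¬ IsPath E (L + 1) q) (e : Finset V) (he : e ∈ E)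
    (hne : e ≠ p 0) (hadj : ¬ Disjoint e (p 0)) : ∃ a, 1 ≤ a ∧ a < L ∧ e = p a := by
  by_contra hcon
  push Not at hcon
  have hcon' : ∀ a, a < L → e ≠ p a := by
    intro a ha
    rcases Nat.eq_zero_or_pos a with rfl | h
    · exact hne
    · exact hcon a h ha
  refine hmax (fun a => if a = 0 then e else p (a - 1)) ⟨?_, ?_, ?_⟩
  · intro a ha
    by_cases h : a = 0
    · simp [h, he]
    · simp only [h, if_false]
      exact hp.1 _ (by omega)
  · intro a b ha hb hab
    by_cases h : a = 0 <;> by_cases h' : b = 0
    · omega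
    · simp only [h, h', if_true, if_false] at hab
      exact absurd hab (hcon' _ (by omega))
    · simp only [h, h', if_true, if_false] at hab
      exact absurd hab.symm (hcon' _ (by omega))
    · simp only [h, h', if_false] at hab
      have := hp.2.1 _ _ (by omega) (by omega) hab
      omega
  · intro a ha
    by_cases h : a = 0
    · subst h
      simpa using hadj
    · have h2 : a + 1 ≠ 0 := by omega
      simp only [h, h2, if_false]
      have h3 := hp.2.2 (a - 1) (by omega)
      rw [show a - 1 + 1 = a + 1 - 1 by omega] at h3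
      exact h3

/-- A reducible configuration in the linear 2-regular case. -/
theorem low_linear (E : Finset (Finset V)) (hne : E.Nonempty) (h3 : ∀ e ∈ E, e.card = 3)
    (hmax : ∀ u, deg E u ≤ 2) (hreg : ∀ e ∈ E, ∀ u ∈ e, deg E u = 2)
    (hlin : ∀ e ∈ E, ∀ e' ∈ E, e ≠ e' → ∀ x y, x ∈ e → y ∈ e → x ∈ e' → y ∈ e' → x = y) :
    ∃ S : Finset V, (hit E S).Nonempty ∧ 4 * S.card ≤ (hit E S).card + (Z E S).card := by
  obtain ⟨L, p, hL, hp, hpm⟩ := exists_max_path E hne
  have h0 : p 0 ∈ E := hp.1 0 (by omega)
  obtain ⟨x, y, z, hxy, hxz, hyz, hp0⟩ := Finset.card_eq_three.1 (h3 _ h0)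
  have hx0 : x ∈ p 0 := by rw [hp0]; simp
  have hy0 : y ∈ p 0 := by rw [hp0]; simp
  have hz0 : z ∈ p 0 := by rw [hp0]; simp
  obtain ⟨e1, he1, hxe1, hne1⟩ := other_edge E x (hreg _ h0 x hx0) (p 0)
  obtain ⟨e2, he2, hye2, hne2⟩ := other_edge E y (hreg _ h0 y hy0) (p 0)
  obtain ⟨e3, he3, hze3, hne3⟩ := other_edge E z (hreg _ h0 z hz0) (p 0)
  have h12 : e1 ≠ e2 := by
    intro h
    exact hxy (hlin _ h0 e1 he1 hne1.symm x y hx0 hy0 hxe1 (h ▸ hye2))
  have h13 : e1 ≠ e3 := by
    intro h
    exact hxz (hlin _ h0 e1 he1 hne1.symm x z hx0 hz0 hxe1 (h ▸ hze3))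
  have h23 : e2 ≠ e3 := by
    intro h
    exact hyz (hlin _ h0 e2 he2 hne2.symm y z hy0 hz0 hye2 (h ▸ hze3))
  have hd1 : ¬ Disjoint e1 (p 0) := Finset.not_disjoint_iff.2 ⟨x, hxe1, hx0⟩
  have hd2 : ¬ Disjoint e2 (p 0) := Finset.not_disjoint_iff.2 ⟨y, hye2, hy0⟩
  have hd3 : ¬ Disjoint e3 (p 0) := Finset.not_disjoint_iff.2 ⟨z, hze3, hz0⟩
  obtain ⟨a1, ha1, hl1, rfl⟩ := on_path E L p hL hp hpm e1 he1 hne1 hd1
  obtain ⟨a2, ha2, hl2, rfl⟩ := on_path E L p hL hp hpm e2 he2 hne2 hd2
  obtain ⟨a3, ha3, hl3, rfl⟩ := on_path E L p hL hp hpm e3 he3 hne3 hd3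
  have g12 : a1 ≠ a2 := fun h => h12 (by rw [h])
  have g13 : a1 ≠ a3 := fun h => h13 (by rw [h])
  have g23 : a2 ≠ a3 := fun h => h23 (by rw [h])
  -- two of the positions are at least two
  have key : ∃ i j, 2 ≤ i ∧ i < j ∧ j < L ∧ ¬ Disjoint (p i) (p 0) ∧ ¬ Disjoint (p j) (p 0) := by
    by_cases c1 : a1 = 1
    · rcases Nat.lt_or_ge a2 a3 with h | h
      · exact ⟨a2, a3, by omega, h, hl3, hd2, hd3⟩
      · exact ⟨a3, a2, by omega, by omega, hl2, hd3, hd2⟩
    · by_cases c2 : a2 = 1
      · rcases Nat.lt_or_ge a1 a3 with h | h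
        · exact ⟨a1, a3, by omega, h, hl3, hd1, hd3⟩
        · exact ⟨a3, a1, by omega, by omega, hl1, hd3, hd1⟩
      · rcases Nat.lt_or_ge a1 a2 with h | h
        · exact ⟨a1, a2, by omega, h, hl2, hd1, hd2⟩
        · exact ⟨a2, a1, by omega, by omega, hl1, hd2, hd1⟩
  obtain ⟨i, j, hi2, hij, hjL, hdi, hdj⟩ := key
  rcases Nat.even_or_odd' j with ⟨t, ht | ht⟩
  · rcases Nat.even_or_odd' i with ⟨s, hs | hs⟩
    · -- both even: the cycle `p 0, p i, ..., p j`
      refine even_cycle E hmax (t - s + 1) (by omega)
        (fun a => if a = 0 then p 0 else p (i + a - 1)) ?_ ?_ ?_ ?_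
      · intro a ha
        by_cases h : a = 0
        · simp only [h, if_true]
          exact h0
        · simp only [h, if_false]
          exact hp.1 _ (by omega)
      · intro a b ha hb hab
        by_cases h : a = 0 <;> by_cases h' : b = 0
        · omega
        · simp only [h, h', if_true, if_false] at hab
          have := hp.2.1 _ _ (by omega) (by omega) hab
          omega
        · simp only [h, h', if_true, if_false] at hab
          have := hp.2.1 _ _ (by omega) (by omega) hab
          omega
        · simp only [h, h', if_false] at hab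
          have := hp.2.1 _ _ (by omega) (by omega) hab
          omega
      · intro a ha
        have h2 : a + 1 ≠ 0 := by omega
        by_cases h : a = 0
        · subst h
          simp only [if_true, h2, if_false]
          rw [show i + (0 + 1) - 1 = i by omega, disjoint_comm]
          exact hdi
        · simp only [h, h2, if_false]
          have h3 := hp.2.2 (i + a - 1) (by omega)
          rw [show i + a - 1 + 1 = i + (a + 1) - 1 by omega] at h3
          exact h3
      · have h2 : 2 * (t - s + 1) - 1 ≠ 0 := by omega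
        simp only [h2, if_true, if_false]
        rw [show i + (2 * (t - s + 1) - 1) - 1 = j by omega]
        exact hdj
    · -- `i` odd: the cycle `p 0, ..., p i`
      refine even_cycle E hmax (s + 1) (by omega) p ?_ ?_ ?_ ?_
      · intro a ha
        exact hp.1 a (by omega)
      · intro a b ha hb hab
        exact hp.2.1 a b (by omega) (by omega) hab
      · intro a ha
        exact hp.2.2 a (by omega)
      · rw [show 2 * (s + 1) - 1 = i by omega]
        exact hdi
  · -- `j` odd: the cycle `p 0, ..., p j`
    refine even_cycle E hmax (t + 1) (by omega) p ?_ ?_ ?_ ?_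
    · intro a ha
      exact hp.1 a (by omega)
    · intro a b ha hb hab
      exact hp.2.1 a b (by omega) (by omega) hab
    · intro a ha
      exact hp.2.2 a (by omega)
    · rw [show 2 * (t + 1) - 1 = j by omega]
      exact hdj

/-- A reducible configuration exists whenever the maximum degree is at most two. -/
theorem low (E : Finset (Finset V)) (hne : E.Nonempty) (h3 : ∀ e ∈ E, e.card = 3)
    (hmax : ∀ u, deg E u ≤ 2) :
    ∃ S : Finset V, (hit E S).Nonempty ∧ 4 * S.card ≤ (hit E S).card + (Z E S).card := by
  have hpos : ∀ e ∈ E, ∀ x ∈ e, 1 ≤ deg E x := by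
    intro e he x hx
    unfold deg
    exact Finset.card_pos.2 ⟨e, Finset.mem_filter.2 ⟨he, hx⟩⟩
  by_cases hdeg1 : ∃ e ∈ E, ∃ x ∈ e, deg E x = 1
  · obtain ⟨e, he, x, hxe, hx1⟩ := hdeg1
    by_cases hy : ∃ y ∈ e, deg E y = 2
    · -- case (b)
      obtain ⟨y, hye, hy2⟩ := hy
      have hxy : x ≠ y := by
        rintro rfl
        omega
      have hc : (hit E {y}).card = 2 := by rw [card_hit_singleton, hy2]
      have hZ : ({x, y} : Finset V) ⊆ Z E {y} := by
        intro u hu
        simp only [Finset.mem_insert, Finset.mem_singleton] at hu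
        rcases hu with rfl | rfl
        · refine mem_Z E _ u e he hxe ?_
          intro e' he' hue'
          rw [one_edge E u (by omega) e he hxe e' he' hue']
          simpa using hye
        · refine mem_Z E _ u e he hye ?_
          intro e' he' hue'
          simpa using hue'
      have hZc := Finset.card_le_card hZ
      rw [Finset.card_pair hxy] at hZc
      refine ⟨{y}, Finset.card_pos.1 (by omega), ?_⟩
      rw [Finset.card_singleton]
      omega
    · -- case (a)
      push Not at hy
      have hall : ∀ y ∈ e, deg E y = 1 := by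
        intro y hye
        have h1 := hmax y
        have h2 := hy y hye
        have h4 := hpos e he y hye
        omega
      have hc : (hit E {x}).card = 1 := by rw [card_hit_singleton, hx1]
      have hZ : e ⊆ Z E {x} := by
        intro u hu
        refine mem_Z E _ u e he hu ?_
        intro e' he' hue'
        rw [one_edge E u (by rw [hall u hu]) e he hu e' he' hue']
        simpa using hxe
      have hZc := Finset.card_le_card hZ
      rw [h3 e he] at hZc
      refine ⟨{x}, Finset.card_pos.1 (by omega), ?_⟩
      rw [Finset.card_singleton]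
      omega
  · push Not at hdeg1
    have hreg : ∀ e ∈ E, ∀ u ∈ e, deg E u = 2 := by
      intro e he u hu
      have h1 := hmax u
      have h2 := hdeg1 e he u hu
      have h4 := hpos e he u hu
      omega
    by_cases hlin : ∀ e ∈ E, ∀ e' ∈ E, e ≠ e' →
        ∀ x y, x ∈ e → y ∈ e → x ∈ e' → y ∈ e' → x = y
    · exact low_linear E hne h3 hmax hreg hlin
    · -- case (c)
      push Not at hlin
      obtain ⟨e, he, e', he', hee, x, y, hxe, hye, hxe', hye', hxy⟩ := hlin
      have hc : (hit E {y}).card = 2 := by rw [card_hit_singleton, hreg e he y hye]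
      have hZ : ({x, y} : Finset V) ⊆ Z E {y} := by
        intro u hu
        simp only [Finset.mem_insert, Finset.mem_singleton] at hu
        rcases hu with rfl | rfl
        · refine mem_Z E _ u e he hxe ?_
          intro e'' he'' hue''
          rcases two_edges E u (hmax u) e e' he he' hee hxe hxe' e'' he'' hue'' with rfl | rfl
          · simpa using hye
          · simpa using hye'
        · refine mem_Z E _ u e he hye ?_
          intro e'' he'' hue''
          simpa using hue''
      have hZc := Finset.card_le_card hZ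
      rw [Finset.card_pair hxy] at hZc
      refine ⟨{y}, Finset.card_pos.1 (by omega), ?_⟩
      rw [Finset.card_singleton]
      omega

end Pool.Agent.W325.SD
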